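import Pool.Agent.D0H11.GM.Stm

set_option autoImplicit false

/-! Project GM (helper11), module DENS: the limes superior by Lebesgue's density theorem. -/

namespace Pool.Agent.D0H52.GM

open Finset MeasureTheory Filter Topology Pool.Agent.D0H11.GM

/-- the points of the quadrant which are in no `G M`, `M ≥ k` -/
def DD (G : ℕ → Set (ℝ × ℝ)) (k : ℕ) : Set (ℝ × ℝ) :=
  {a | 0 < a.1 ∧ 0 < a.2 ∧ ∀ M, k ≤ M → a ∉ G M}

theorem meas_DD (G : ℕ → Set (ℝ × ℝ)) (hG : ∀ M, MeasurableSet (G M)) (k : ℕ) :
    MeasurableSet (DD G k) := by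
  have h1 : DD G k = {a : ℝ × ℝ | 0 < a.1} ∩ ({a : ℝ × ℝ | 0 < a.2} ∩
      ⋂ M : ℕ, ⋂ _ : k ≤ M, (G M)ᶜ) := by
    ext a
    simp [DD]
  rw [h1]
  refine (measurableSet_lt measurable_const measurable_fst).inter
    ((measurableSet_lt measurable_const measurable_snd).inter ?_)
  exact MeasurableSet.iInter fun M => MeasurableSet.iInter fun _ => (hG M).compl

theorem t_DENS : S_DENS := by
  intro G c₂ hc hG hE
  have hk : ∀ k : ℕ, ∀ᵐ a : ℝ × ℝ, a ∉ DD G k := by
    intro k
    filter_upwards [Besicovitch.ae_tendsto_measure_inter_div_of_measurableSet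
      (volume : Measure (ℝ × ℝ)) (meas_DD G hG k)] with a ha hmem
    have h1 : (DD G k).indicator (1 : ℝ × ℝ → ENNReal) a = 1 := Set.indicator_of_mem hmem 1
    rw [h1] at ha
    have hpos : 0 < min a.1 a.2 := lt_min hmem.1 hmem.2.1
    have h2 : ∀ᶠ r in 𝓝[>] (0 : ℝ), volume (DD G k ∩ Metric.closedBall a r) /
        volume (Metric.closedBall a r) + ENNReal.ofReal c₂ ≤ 1 := by
      have h3 : Set.Ioo (0 : ℝ) (min a.1 a.2) ∈ 𝓝[>] (0 : ℝ) := Ioo_mem_nhdsGT hpos
      filter_upwards [h3] with r hr
      have hSq : Sq a r := ⟨hr.1, hr.2.trans_le (min_le_left _ _), hr.2.trans_le (min_le_right _ _)⟩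
      obtain ⟨M, hM1, hM2⟩ := ((hE a r hSq).and (eventually_ge_atTop k)).exists
      have hB0 : volume (Metric.closedBall a r) ≠ 0 := (Metric.measure_closedBall_pos _ a hr.1).ne'
      have hBt : volume (Metric.closedBall a r) ≠ ⊤ := measure_closedBall_lt_top.ne
      have h4 : volume (DD G k ∩ Metric.closedBall a r) +
          volume (G M ∩ Metric.closedBall a r) ≤ volume (Metric.closedBall a r) := by
        rw [← measure_union]
        · apply measure_mono
          intro x hx
          rcases hx with hx | hx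
          · exact hx.2
          · exact hx.2
        · rw [Set.disjoint_left]
          intro x hx1 hx2
          exact hx1.1.2.2 M hM2 hx2.1
        · exact (hG M).inter Metric.isClosed_closedBall.measurableSet
      have h5 : volume (DD G k ∩ Metric.closedBall a r) +
          ENNReal.ofReal c₂ * volume (Metric.closedBall a r) ≤ volume (Metric.closedBall a r) :=
        (by gcongr : _ ≤ volume (DD G k ∩ Metric.closedBall a r) +
          volume (G M ∩ Metric.closedBall a r)).trans h4
      have h6 : (volume (DD G k ∩ Metric.closedBall a r) / volume (Metric.closedBall a r) +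
          ENNReal.ofReal c₂) * volume (Metric.closedBall a r) ≤
          1 * volume (Metric.closedBall a r) := by
        rw [add_mul, ENNReal.div_mul_cancel hB0 hBt, one_mul]
        exact h5
      exact (ENNReal.mul_le_mul_iff_left hB0 hBt).mp h6
    have h3 := ha.add (tendsto_const_nhds (x := ENNReal.ofReal c₂))
    have h4 : (1 : ENNReal) + ENNReal.ofReal c₂ ≤ 1 := le_of_tendsto h3 h2
    have h5 : (1 : ENNReal) < 1 + ENNReal.ofReal c₂ :=
      ENNReal.lt_add_right ENNReal.one_ne_top (ENNReal.ofReal_pos.mpr hc).ne'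
    exact absurd h4 (not_le.mpr h5)
  have hall := ae_all_iff.mpr hk
  filter_upwards [hall] with a ha h1 h2
  intro hcon
  obtain ⟨k, hk2⟩ := eventually_atTop.mp hcon
  exact ha k ⟨h1, h2, fun M hM => hk2 M hM⟩

end Pool.Agent.D0H52.GM
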