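import Pool.Agent.D0H11.GM.Stm

set_option autoImplicit false

/-! Project GM (helper11), module MOM: the method of Paley and Zygmund for many functions. -/

namespace Pool.Agent.D0H52.GM

open Finset MeasureTheory Filter Topology Pool.Agent.D0H11.GM

theorem le_of_sq {x y : ℝ} (hy : 0 ≤ y) (h : x ^ 2 ≤ y ^ 2) : x ≤ y :=
  le_of_abs_le (abs_le_of_sq_le_sq h hy)

open Classical in
/-- the pointwise inequality -/
theorem pw (M : ℕ) (hM : 1 ≤ M) (c lam : ℝ) (hc : 0 < c) (hl : 0 < lam) (s : ℕ → ℝ) :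
    ∑ n ∈ range (16 * M ^ 2), s n ≤ c / 2 * (M : ℝ) ^ 3 +
      4 / (lam * M) * ∑ n ∈ range (16 * M ^ 2), s n ^ 2 +
      4 * lam * (M : ℝ) ^ 3 * (if c / 2 * (M : ℝ) ^ 3 ≤ ∑ n ∈ range (16 * M ^ 2), s n ∧
        ∑ n ∈ range (16 * M ^ 2), s n ^ 2 ≤ lam ^ 2 * (M : ℝ) ^ 4 then 1 else 0) := by
  have hM0 : (0 : ℝ) < M := by exact_mod_cast hM
  have hcs : (∑ n ∈ range (16 * M ^ 2), s n) ^ 2 ≤
      16 * (M : ℝ) ^ 2 * ∑ n ∈ range (16 * M ^ 2), s n ^ 2 := by
    have h1 := sq_sum_le_card_mul_sum_sq (s := range (16 * M ^ 2)) (f := s)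
    rw [card_range] at h1
    push_cast at h1
    exact h1
  have hX0 : 0 ≤ ∑ n ∈ range (16 * M ^ 2), s n ^ 2 := Finset.sum_nonneg fun n _ => sq_nonneg _
  set T := ∑ n ∈ range (16 * M ^ 2), s n with hT
  set X := ∑ n ∈ range (16 * M ^ 2), s n ^ 2 with hX
  have h1 : 0 ≤ c / 2 * (M : ℝ) ^ 3 := by positivity
  have h2 : 0 ≤ 4 / (lam * M) * X := by positivity
  have h3 : 0 ≤ 4 * lam * (M : ℝ) ^ 3 := by positivity
  by_cases hA : c / 2 * (M : ℝ) ^ 3 ≤ T
  · by_cases hB : X ≤ lam ^ 2 * (M : ℝ) ^ 4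
    · rw [if_pos ⟨hA, hB⟩, mul_one]
      have h4 : T ≤ 4 * lam * (M : ℝ) ^ 3 := by
        apply le_of_sq h3
        refine hcs.trans ?_
        have h5 : 16 * (M : ℝ) ^ 2 * X ≤ 16 * (M : ℝ) ^ 2 * (lam ^ 2 * (M : ℝ) ^ 4) :=
          mul_le_mul_of_nonneg_left hB (by positivity)
        refine h5.trans (le_of_eq ?_)
        ring
      linarith
    · rw [if_neg (fun h => hB h.2), mul_zero, add_zero]
      push Not at hB
      have h4 : T ≤ 4 / (lam * M) * X := by
        apply le_of_sq h2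
        refine hcs.trans ?_
        have h5 : (4 / (lam * M) * X) ^ 2 = 16 * X * (X / (lam ^ 2 * (M : ℝ) ^ 2)) := by
          field_simp
          ring
        rw [h5]
        have h6 : (M : ℝ) ^ 2 ≤ X / (lam ^ 2 * (M : ℝ) ^ 2) := by
          rw [le_div_iff₀ (by positivity)]
          refine le_trans (le_of_eq ?_) hB.le
          ring
        have h7 := mul_le_mul_of_nonneg_left h6 (by positivity : (0 : ℝ) ≤ 16 * X)
        refine le_trans (le_of_eq ?_) h7
        ring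
      linarith
  · rw [if_neg (fun h => hA h.1), mul_zero, add_zero]
    push Not at hA
    linarith

open Classical in
/-- many large values -/
theorem cnt (M : ℕ) (hM : 1 ≤ M) (c lam : ℝ) (hc : 0 < c) (hl : 0 < lam) (s : ℕ → ℝ)
    (hA : c / 2 * (M : ℝ) ^ 3 ≤ ∑ n ∈ range (16 * M ^ 2), s n)
    (hB : ∑ n ∈ range (16 * M ^ 2), s n ^ 2 ≤ lam ^ 2 * (M : ℝ) ^ 4) :
    (c / (4 * lam)) ^ 2 * (M : ℝ) ^ 2 ≤
      ((((range (16 * M ^ 2)).filter fun n => c / 64 * M ≤ s n).card : ℕ) : ℝ) := by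
  have hM0 : (0 : ℝ) < M := by exact_mod_cast hM
  have h1 := Finset.sum_filter_add_sum_filter_not (range (16 * M ^ 2))
    (fun n => c / 64 * M ≤ s n) s
  have h2 : ∑ n ∈ (range (16 * M ^ 2)).filter (fun n => ¬ c / 64 * M ≤ s n), s n ≤
      c / 4 * (M : ℝ) ^ 3 := by
    have h3 : ∑ n ∈ (range (16 * M ^ 2)).filter (fun n => ¬ c / 64 * M ≤ s n), s n ≤
        ∑ n ∈ (range (16 * M ^ 2)).filter (fun n => ¬ c / 64 * M ≤ s n), c / 64 * (M : ℝ) :=
      Finset.sum_le_sum fun n hn => (not_le.mp (Finset.mem_filter.mp hn).2).le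
    rw [Finset.sum_const, nsmul_eq_mul] at h3
    have h4 : (((range (16 * M ^ 2)).filter (fun n => ¬ c / 64 * M ≤ s n)).card : ℝ) ≤
        16 * (M : ℝ) ^ 2 := by
      have h5 := Finset.card_filter_le (range (16 * M ^ 2)) (fun n => ¬ c / 64 * M ≤ s n)
      rw [card_range] at h5
      exact_mod_cast h5
    have h5 := mul_le_mul_of_nonneg_right h4 (by positivity : (0 : ℝ) ≤ c / 64 * M)
    refine h3.trans (h5.trans (le_of_eq ?_))
    ring
  have h3 : c / 4 * (M : ℝ) ^ 3 ≤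
      ∑ n ∈ (range (16 * M ^ 2)).filter (fun n => c / 64 * M ≤ s n), s n := by
    linarith
  have h4 := sq_sum_le_card_mul_sum_sq
    (s := (range (16 * M ^ 2)).filter (fun n => c / 64 * M ≤ s n)) (f := s)
  have h5 : ∑ n ∈ (range (16 * M ^ 2)).filter (fun n => c / 64 * M ≤ s n), s n ^ 2 ≤
      lam ^ 2 * (M : ℝ) ^ 4 := by
    refine le_trans ?_ hB
    exact Finset.sum_le_sum_of_subset_of_nonneg (Finset.filter_subset _ _)
      (fun n _ _ => sq_nonneg _)
  set k : ℝ := ((((range (16 * M ^ 2)).filter fun n => c / 64 * M ≤ s n).card : ℕ) : ℝ) with hk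
  have hk0 : 0 ≤ k := Nat.cast_nonneg _
  have h6 : (c / 4 * (M : ℝ) ^ 3) ^ 2 ≤ k * (lam ^ 2 * (M : ℝ) ^ 4) := by
    have h7 : (c / 4 * (M : ℝ) ^ 3) ^ 2 ≤
        (∑ n ∈ (range (16 * M ^ 2)).filter (fun n => c / 64 * M ≤ s n), s n) ^ 2 :=
      pow_le_pow_left₀ (by positivity) h3 2
    exact h7.trans (h4.trans (mul_le_mul_of_nonneg_left h5 hk0))
  have h7 : (c / (4 * lam)) ^ 2 * (M : ℝ) ^ 2 * (lam ^ 2 * (M : ℝ) ^ 4) ≤
      k * (lam ^ 2 * (M : ℝ) ^ 4) := by
    refine le_trans (le_of_eq ?_) h6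
    field_simp
  exact le_of_mul_le_mul_right h7 (by positivity)

theorem t_MOM : S_MOM := by
  classical
  intro c C hc hC
  obtain ⟨lam, hlam⟩ : ∃ lam : ℝ, lam = 16 * C / c := ⟨_, rfl⟩
  have hl : 0 < lam := by
    rw [hlam]
    positivity
  refine ⟨min (c / (16 * lam)) (min (c / 64) ((c / (4 * lam)) ^ 2)), by positivity, ?_⟩
  intro M J S B hM hJ hJt hS hB h1 h2
  set c₁ : ℝ := min (c / (16 * lam)) (min (c / 64) ((c / (4 * lam)) ^ 2)) with hc₁
  have hc1a : c₁ ≤ c / (16 * lam) := min_le_left _ _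
  have hc1b : c₁ ≤ c / 64 := (min_le_right _ _).trans (min_le_left _ _)
  have hc1c : c₁ ≤ (c / (4 * lam)) ^ 2 := (min_le_right _ _).trans (min_le_right _ _)
  have hM0 : (0 : ℝ) < M := by exact_mod_cast hM
  let T : ℝ × ℝ → ℝ := fun a => ∑ n ∈ range (16 * M ^ 2), S n a
  let X : ℝ × ℝ → ℝ := fun a => ∑ n ∈ range (16 * M ^ 2), S n a ^ 2
  have hTm : Measurable T := Finset.measurable_sum _ fun n _ => hS n
  have hXm : Measurable X := Finset.measurable_sum _ fun n _ => (hS n).pow_const 2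
  let G0 : Set (ℝ × ℝ) := {a | c / 2 * (M : ℝ) ^ 3 ≤ T a ∧ X a ≤ lam ^ 2 * (M : ℝ) ^ 4}
  have hG0 : MeasurableSet G0 :=
    (measurableSet_le measurable_const hTm).inter (measurableSet_le hXm measurable_const)
  have hfin : IsFiniteMeasure (volume.restrict J) := ⟨by
    rw [Measure.restrict_apply_univ]
    exact lt_top_iff_ne_top.mpr hJt⟩
  have hSi : ∀ n, Integrable (S n) (volume.restrict J) := by
    intro n
    refine Integrable.of_bound (hS n).aestronglyMeasurable B ?_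
    filter_upwards with a
    rw [Real.norm_eq_abs, abs_of_nonneg (hB n a).1]
    exact (hB n a).2
  have hSi2 : ∀ n, Integrable (fun a => S n a ^ 2) (volume.restrict J) := by
    intro n
    refine Integrable.of_bound ((hS n).pow_const 2).aestronglyMeasurable (B ^ 2) ?_
    filter_upwards with a
    rw [Real.norm_eq_abs, abs_of_nonneg (sq_nonneg _)]
    exact pow_le_pow_left₀ (hB n a).1 (hB n a).2 2
  have hTi : Integrable T (volume.restrict J) := integrable_finsetSum _ fun n _ => hSi n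
  have hXi : Integrable X (volume.restrict J) := integrable_finsetSum _ fun n _ => hSi2 n
  have hIi : Integrable (G0.indicator (fun _ => (1 : ℝ))) (volume.restrict J) :=
    (integrable_const 1).indicator hG0
  have hpw : ∀ a, T a ≤ c / 2 * (M : ℝ) ^ 3 + 4 / (lam * M) * X a +
      4 * lam * (M : ℝ) ^ 3 * G0.indicator (fun _ => (1 : ℝ)) a := by
    intro a
    have h3 := pw M hM c lam hc hl (fun n => S n a)
    by_cases ha : a ∈ G0
    · have h4 : c / 2 * (M : ℝ) ^ 3 ≤ ∑ n ∈ range (16 * M ^ 2), S n a ∧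
        ∑ n ∈ range (16 * M ^ 2), S n a ^ 2 ≤ lam ^ 2 * (M : ℝ) ^ 4 := ha
      rw [if_pos h4] at h3
      rw [Set.indicator_of_mem ha]
      exact h3
    · have h4 : ¬ (c / 2 * (M : ℝ) ^ 3 ≤ ∑ n ∈ range (16 * M ^ 2), S n a ∧
        ∑ n ∈ range (16 * M ^ 2), S n a ^ 2 ≤ lam ^ 2 * (M : ℝ) ^ 4) := ha
      rw [if_neg h4] at h3
      rw [Set.indicator_of_notMem ha]
      exact h3
  have hint : ∫ a in J, T a ≤ c / 2 * (M : ℝ) ^ 3 * (volume J).toReal +
      4 / (lam * M) * (∫ a in J, X a) + 4 * lam * (M : ℝ) ^ 3 * (volume (G0 ∩ J)).toReal := by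
    have h3 : ∫ a in J, T a ≤ ∫ a in J, (c / 2 * (M : ℝ) ^ 3 + 4 / (lam * M) * X a +
        4 * lam * (M : ℝ) ^ 3 * G0.indicator (fun _ => (1 : ℝ)) a) := by
      refine integral_mono hTi ?_ hpw
      exact ((integrable_const _).add (hXi.const_mul _)).add (hIi.const_mul _)
    have e1 : ∫ a in J, (c / 2 * (M : ℝ) ^ 3 + 4 / (lam * M) * X a +
        4 * lam * (M : ℝ) ^ 3 * G0.indicator (fun _ => (1 : ℝ)) a) =
        (∫ a in J, (c / 2 * (M : ℝ) ^ 3 + 4 / (lam * M) * X a)) +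
          ∫ a in J, 4 * lam * (M : ℝ) ^ 3 * G0.indicator (fun _ => (1 : ℝ)) a :=
      integral_add ((integrable_const _).add (hXi.const_mul _)) (hIi.const_mul _)
    have e2 : ∫ a in J, (c / 2 * (M : ℝ) ^ 3 + 4 / (lam * M) * X a) =
        (∫ _a in J, c / 2 * (M : ℝ) ^ 3) + ∫ a in J, 4 / (lam * M) * X a :=
      integral_add (integrable_const _) (hXi.const_mul _)
    have e3 : ∫ a in J, 4 / (lam * M) * X a = 4 / (lam * M) * ∫ a in J, X a :=
      integral_const_mul _ _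
    have e4 : ∫ a in J, 4 * lam * (M : ℝ) ^ 3 * G0.indicator (fun _ => (1 : ℝ)) a =
        4 * lam * (M : ℝ) ^ 3 * ∫ a in J, G0.indicator (fun _ => (1 : ℝ)) a :=
      integral_const_mul _ _
    have e5 : ∫ a in J, G0.indicator (fun _ => (1 : ℝ)) a = (volume (G0 ∩ J)).toReal := by
      rw [integral_indicator hG0, Measure.restrict_restrict hG0, setIntegral_const, smul_eq_mul,
        mul_one]
      rfl
    have e6 : ∫ _a in J, c / 2 * (M : ℝ) ^ 3 = c / 2 * (M : ℝ) ^ 3 * (volume J).toReal := by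
      rw [setIntegral_const, smul_eq_mul, mul_comm]
      rfl
    rw [e1, e2, e3, e4, e5, e6] at h3
    exact h3
  set V : ℝ := (volume J).toReal with hV
  have hV0 : 0 ≤ V := ENNReal.toReal_nonneg
  have hG1 : c / (16 * lam) * V ≤ (volume (G0 ∩ J)).toReal := by
    have h3 : 4 / (lam * M) * (∫ a in J, X a) ≤ 4 / (lam * M) * (C * (M : ℝ) ^ 4 * V) :=
      mul_le_mul_of_nonneg_left h2 (by positivity)
    have h4 : 4 / (lam * M) * (C * (M : ℝ) ^ 4 * V) = c / 4 * (M : ℝ) ^ 3 * V := by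
      rw [hlam]
      field_simp
      ring
    have h5 : c * (M : ℝ) ^ 3 * V ≤ c / 2 * (M : ℝ) ^ 3 * V + c / 4 * (M : ℝ) ^ 3 * V +
        4 * lam * (M : ℝ) ^ 3 * (volume (G0 ∩ J)).toReal := by
      have h6 : c * (M : ℝ) ^ 3 * V ≤ ∫ a in J, T a := h1
      linarith
    have h6 : c / (16 * lam) * V * (4 * lam * (M : ℝ) ^ 3) ≤
        (volume (G0 ∩ J)).toReal * (4 * lam * (M : ℝ) ^ 3) := by
      have h7 : c / (16 * lam) * V * (4 * lam * (M : ℝ) ^ 3) = c / 4 * (M : ℝ) ^ 3 * V := by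
        field_simp
        ring
      rw [h7]
      linarith
    exact le_of_mul_le_mul_right h6 (by positivity)
  have hsub : G0 ∩ J ⊆ {a : ℝ × ℝ | a ∈ J ∧ c₁ * (M : ℝ) ^ 2 ≤
      ((((range (16 * M ^ 2)).filter fun n => c₁ * M ≤ S n a).card : ℕ) : ℝ)} := by
    intro a ha
    refine ⟨ha.2, ?_⟩
    have h3 := cnt M hM c lam hc hl (fun n => S n a) ha.1.1 ha.1.2
    have h4 : ((range (16 * M ^ 2)).filter fun n => c / 64 * M ≤ S n a).card ≤
        ((range (16 * M ^ 2)).filter fun n => c₁ * M ≤ S n a).card := by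
      apply Finset.card_le_card
      intro n hn
      rw [Finset.mem_filter] at hn ⊢
      exact ⟨hn.1, (mul_le_mul_of_nonneg_right hc1b hM0.le).trans hn.2⟩
    have h5 : ((((range (16 * M ^ 2)).filter fun n => c / 64 * M ≤ S n a).card : ℕ) : ℝ) ≤
        ((((range (16 * M ^ 2)).filter fun n => c₁ * M ≤ S n a).card : ℕ) : ℝ) := by
      exact_mod_cast h4
    exact (mul_le_mul_of_nonneg_right hc1c (by positivity)).trans (h3.trans h5)
  calc c₁ * V ≤ c / (16 * lam) * V := mul_le_mul_of_nonneg_right hc1a hV0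
    _ ≤ (volume (G0 ∩ J)).toReal := hG1
    _ ≤ _ := by
        refine ENNReal.toReal_mono ?_ (measure_mono ?_)
        · refine ne_top_of_le_ne_top hJt (measure_mono ?_)
          intro a ha
          exact ha.1
        · intro a ha
          have h3 := hsub ha
          refine ⟨h3.1, ?_⟩
          convert h3.2

end Pool.Agent.D0H52.GM
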